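import Pool.Agent.GT.StmtsB

/-!
# B_CAP: the capping argument
-/

set_option autoImplicit false

open Finset

noncomputable section

namespace Pool.Agent.GT.H90

variable {K : ℕ} {X : Type} [Fintype X] [Nonempty X]

omit [Nonempty X] in
theorem hlf_mono {μ : Fin K → (Fin K → X) → ℝ} {e e' : ℝ} (h : HLF μ e) (he : e ≤ e') :
    HLF μ e' := fun S hS => (h S hS).trans he

omit [Nonempty X] in
theorem cut_mono {j : Fin K} {f : (Fin K → X) → ℝ} {e e' : ℝ} (h : Cut j f e) (he : e ≤ e') :
    Cut j f e' := fun u h1 h2 => (h u h1 h2).trans he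

/-- the mean of the absolute value -/
theorem av_abs_le {α : Type} [Fintype α] [Nonempty α] (f : α → ℝ) :
    av (fun a => |f a|) ≤ Real.sqrt (av (fun a => f a ^ 2)) := by
  apply Real.le_sqrt_of_sq_le
  have h := av_sq_le (fun _ : α => (1 : ℝ)) (fun _ : α => (1 : ℝ)) (fun a => |f a|)
    (fun _ => by norm_num)
  simpa [av_const] using h

/-- the marginal of a product -/
def mg (a : Fin K) (g : Fin K → (Fin K → X) → ℝ) (x : Fin K → X) : ℝ :=
  av (fun s => ∏ j ∈ univ.erase a, g j (Function.update x a s))

omit [Nonempty X] in
theorem mg_ind (a : Fin K) (g : Fin K → (Fin K → X) → ℝ) : Ind a (mg a g) := by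
  intro x s
  unfold mg
  simp only [Function.update_idem]

/-- the marginal against a function which does not depend on `x_a` -/
theorem av_mg (a : Fin K) (g : Fin K → (Fin K → X) → ℝ) (k : (Fin K → X) → ℝ) (hk : Ind a k) :
    av (fun x => mg a g x * k x) = av (fun x => ∏ j, (Function.update g a k) j x) := by
  have h1 : ∀ x : Fin K → X, ∏ j, (Function.update g a k) j x =
      (∏ j ∈ univ.erase a, g j x) * k x := by
    intro x
    rw [← Finset.prod_erase_mul univ _ (Finset.mem_univ a), Function.update_self]
    congr 1
    refine Finset.prod_congr rfl fun j hj => ?_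
    rw [Function.update_of_ne (Finset.ne_of_mem_erase hj)]
  simp only [h1]
  rw [av_update a (fun x => (∏ j ∈ univ.erase a, g j x) * k x)]
  congr 1
  funext x
  have h2 : ∀ s : X, k (Function.update x a s) = k x := fun s => hk x s
  simp only [h2]
  rw [av_mul_right]
  rfl

/-- **B_CAP** -/
theorem b_cap (nup : NupStmt) : CapStmt := by
  intro K A a haA hCN η hη
  obtain ⟨e1, he1, hC⟩ := hCN (η / 8) (by positivity)
  set t : ℝ := min 1 (η / 6) with ht
  have ht0 : 0 < t := lt_min one_pos (by positivity)
  have ht1 : t ≤ 1 := min_le_left _ _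
  have ht2 : t ≤ η / 6 := min_le_right _ _
  refine ⟨min e1 (t ^ 2 / 3), lt_min he1 (by positivity), ?_⟩
  intro X _ _ μ g h iμ ig ih μ0 hlf g0 gA gn h0 h1 hcut
  set e : ℝ := min e1 (t ^ 2 / 3) with he
  have hee1 : e ≤ e1 := min_le_left _ _
  have het : 3 * e ≤ t ^ 2 := by
    have := min_le_right e1 (t ^ 2 / 3)
    rw [← he] at this
    linarith
  classical
  let P : Fin K → (Fin K → X) → ℝ := fun j => if j ∈ A then μ j else fun _ => 1
  have hP : ∀ i, P i = μ i ∨ P i = fun _ => 1 := by
    intro i
    by_cases hi : i ∈ A
    · left; simp [P, hi]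
    · right; simp [P, hi]
  have hgP : ∀ j ∈ univ.erase a, ∀ x, g j x ≤ P j x := by
    intro j hj x
    by_cases hi : j ∈ A
    · simp only [P, hi, if_true]
      exact gA j hi x
    · simp only [P, hi, if_false]
      exact gn j hi (Finset.ne_of_mem_erase hj) x
  have hnu := nup K X e μ P a hlf hP
  change av (fun x => (mg a P x - 1) ^ 2) ≤ 3 * e at hnu
  change av (fun x => (mg a g x - mg a h x) ^ 2) ≤ η
  have hg0 : ∀ x, 0 ≤ mg a g x := fun x => av_nonneg fun s => Finset.prod_nonneg fun j _ => g0 j _
  have hh0 : ∀ x, 0 ≤ mg a h x := fun x => av_nonneg fun s => Finset.prod_nonneg fun j _ => h0 j _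
  have hgn : ∀ x, mg a g x ≤ mg a P x := fun x =>
    av_mono fun s => Finset.prod_le_prod (fun j _ => g0 j _) fun j hj => hgP j hj _
  have hh1 : ∀ x, mg a h x ≤ 1 := fun x => by
    refine (av_mono fun s => Finset.prod_le_one (fun j _ => h0 j _) fun j _ => h1 j _).trans ?_
    rw [av_const]
  -- the counting lemma with a bounded function in the place `a`
  have key : ∀ k : (Fin K → X) → ℝ, Ind a k → (∀ x, 0 ≤ k x) → (∀ x, k x ≤ 1) →
      |av (fun x => mg a g x * k x) - av (fun x => mg a h x * k x)| ≤ η / 8 := by
    intro k hk k0 k1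
    rw [av_mg a g k hk, av_mg a h k hk]
    refine hC X μ (Function.update g a k) (Function.update h a k) iμ ?_ ?_ μ0
      (hlf_mono hlf hee1) ?_ ?_ ?_ ?_ ?_ ?_
    · intro j
      by_cases hj : j = a
      · subst hj; rwa [Function.update_self]
      · rw [Function.update_of_ne hj]; exact ig j
    · intro j
      by_cases hj : j = a
      · subst hj; rwa [Function.update_self]
      · rw [Function.update_of_ne hj]; exact ih j
    · intro j x
      by_cases hj : j = a
      · subst hj; rw [Function.update_self]; exact k0 x
      · rw [Function.update_of_ne hj]; exact g0 j x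
    · intro j hj x
      have : j ≠ a := fun h => haA (h ▸ hj)
      rw [Function.update_of_ne this]; exact gA j hj x
    · intro j hjA x
      by_cases hj : j = a
      · subst hj; rw [Function.update_self]; exact k1 x
      · rw [Function.update_of_ne hj]; exact gn j hjA hj x
    · intro j x
      by_cases hj : j = a
      · subst hj; rw [Function.update_self]; exact k0 x
      · rw [Function.update_of_ne hj]; exact h0 j x
    · intro j x
      by_cases hj : j = a
      · subst hj; rw [Function.update_self]; exact k1 x
      · rw [Function.update_of_ne hj]; exact h1 j x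
    · intro j
      by_cases hj : j = a
      · subst hj
        intro u _ _
        simp only [Function.update_self, sub_self, zero_mul, av_const, abs_zero]
        exact he1.le
      · simp only [Function.update_of_ne hj]
        exact cut_mono (hcut j) hee1
  let m : (Fin K → X) → ℝ := fun x => min (mg a g x) 1
  have hm : Ind a m := by
    intro x s
    show min (mg a g _) 1 = min (mg a g x) 1
    rw [mg_ind a g x s]
  have hm0 : ∀ x, 0 ≤ m x := fun x => le_min (hg0 x) zero_le_one
  have hm1 : ∀ x, m x ≤ 1 := fun x => min_le_right _ _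
  have k1 := key m hm hm0 hm1
  have k2 := key (mg a h) (mg_ind a h) hh0 hh1
  -- the first term
  have f1 : av (fun x => (mg a g x - mg a h x) * (mg a g x - m x)) ≤
      av (fun x => (mg a P x - 1) ^ 2 + 2 * |mg a P x - 1|) := by
    refine av_mono fun x => ?_
    have b1 : 0 ≤ mg a g x - m x := sub_nonneg.2 (min_le_left _ _)
    have b2 : mg a g x - m x ≤ |mg a P x - 1| := by
      rcases le_total (mg a g x) 1 with hc | hc
      · have : m x = mg a g x := min_eq_left hc
        rw [this, sub_self]
        exact abs_nonneg _
      · have : m x = 1 := min_eq_right hc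
        rw [this]
        exact (sub_le_sub_right (hgn x) 1).trans (le_abs_self _)
    have b3 : mg a g x - mg a h x ≤ |mg a P x - 1| + 2 := by
      have := le_abs_self (mg a P x - 1)
      have := hgn x
      have := hh0 x
      linarith
    have b4 : 0 ≤ |mg a P x - 1| := abs_nonneg _
    calc (mg a g x - mg a h x) * (mg a g x - m x)
        ≤ (|mg a P x - 1| + 2) * (mg a g x - m x) := mul_le_mul_of_nonneg_right b3 b1
      _ ≤ (|mg a P x - 1| + 2) * |mg a P x - 1| :=
          mul_le_mul_of_nonneg_left b2 (by linarith)
      _ = (mg a P x - 1) ^ 2 + 2 * |mg a P x - 1| := by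
          rw [← sq_abs (mg a P x - 1)]
          ring
  rw [av_add, av_mul_left] at f1
  have f2 : av (fun x => |mg a P x - 1|) ≤ t := by
    refine (av_abs_le _).trans ?_
    rw [Real.sqrt_le_left ht0.le]
    exact hnu.trans het
  have f3 : av (fun x => (mg a P x - 1) ^ 2) ≤ t := by
    refine hnu.trans (het.trans ?_)
    nlinarith
  -- the decomposition
  have hdec : av (fun x => (mg a g x - mg a h x) ^ 2) =
      av (fun x => (mg a g x - mg a h x) * (mg a g x - m x)) +
        (av (fun x => mg a g x * m x) - av (fun x => mg a h x * m x)) -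
        (av (fun x => mg a g x * mg a h x) - av (fun x => mg a h x * mg a h x)) := by
    rw [← av_sub, ← av_sub, ← av_add, ← av_sub]
    congr 1
    funext x
    ring
  rw [hdec]
  have a1 := (abs_le.1 k1).2
  have a2 := (abs_le.1 k2).1
  linarith

end Pool.Agent.GT.H90

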