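import Pool.Agent.GT.StmtsC

/-!
# C_BAD: the number of bad points
-/

set_option autoImplicit false

open Finset

noncomputable section

namespace Pool.Agent.GT.H90

/-- the elements near the ends -/
theorem card_ends (N T : ℕ) [NeZero N] :
    ((univ : Finset (ZMod N)).filter fun x => x.val < T ∨ N ≤ x.val + T).card ≤ 2 * T := by
  rw [Finset.filter_or]
  refine (Finset.card_union_le _ _).trans ?_
  have h1 : ((univ : Finset (ZMod N)).filter fun x => x.val < T).card ≤ T := by
    have := Finset.card_le_card_of_injOn (s := (univ : Finset (ZMod N)).filter fun x => x.val < T)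
      (t := Finset.range T) (fun x => x.val)
      (fun x hx => by
        have := (Finset.mem_filter.1 hx).2
        exact Finset.mem_coe.2 (Finset.mem_range.2 this))
      (fun x _ y _ h => ZMod.val_injective N h)
    simpa using this
  have h2 : ((univ : Finset (ZMod N)).filter fun x => N ≤ x.val + T).card ≤ T := by
    have := Finset.card_le_card_of_injOn
      (s := (univ : Finset (ZMod N)).filter fun x => N ≤ x.val + T)
      (t := Finset.range T) (fun x => N - 1 - x.val)
      (fun x hx => by
        have h3 := (Finset.mem_filter.1 hx).2
        have h4 := ZMod.val_lt x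
        refine Finset.mem_coe.2 (Finset.mem_range.2 ?_)
        show N - 1 - x.val < T
        omega)
      (fun x _ y _ h => by
        have h4 := ZMod.val_lt x
        have h5 := ZMod.val_lt y
        apply ZMod.val_injective N
        have h6 : N - 1 - x.val = N - 1 - y.val := h
        omega)
    simpa using this
  omega

/-- the number of the vectors with a coordinate in a given set -/
theorem card_coord {ι : Type} [Fintype ι] [DecidableEq ι] (N : ℕ) [NeZero N] (i : ι)
    (X : Finset (ZMod N)) :
    ((univ : Finset (ι → ZMod N)).filter fun y => y i ∈ X).card * N = X.card * N ^ Fintype.card ι := by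
  have h1 : ((univ : Finset (ι → ZMod N)).filter fun y => y i ∈ X) =
      Fintype.piFinset (Function.update (fun _ : ι => (univ : Finset (ZMod N))) i X) := by
    ext y
    simp only [Finset.mem_filter, Finset.mem_univ, true_and, Fintype.mem_piFinset]
    constructor
    · intro hy j
      by_cases hj : j = i
      · subst hj
        rwa [Function.update_self]
      · rw [Function.update_of_ne hj]
        exact Finset.mem_univ _
    · intro h
      have := h i
      rwa [Function.update_self] at this
  rw [h1, Fintype.card_piFinset, ← Finset.mul_prod_erase univ _ (Finset.mem_univ i),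
    Function.update_self]
  have h2 : ∏ j ∈ univ.erase i,
      (Function.update (fun _ : ι => (univ : Finset (ZMod N))) i X j).card =
      N ^ (Fintype.card ι - 1) := by
    rw [Finset.prod_congr rfl (g := fun _ => N)]
    · rw [Finset.prod_const, Finset.card_erase_of_mem (Finset.mem_univ i), Finset.card_univ]
    · intro j hj
      rw [Function.update_of_ne (Finset.ne_of_mem_erase hj), Finset.card_univ, ZMod.card]
  rw [h2, mul_assoc, ← pow_succ]
  have : 0 < Fintype.card ι := Fintype.card_pos_iff.2 ⟨i⟩
  congr 2
  omega

/-- the number of the vectors with the value of a form in a given set -/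
theorem card_form {σ ι : Type} [Fintype ι] [DecidableEq ι] (L : σ → ι → ℤ) (N : ℕ) [NeZero N]
    (s : σ) (i : ι) (hi : L s i = 1 ∨ L s i = -1) (X : Finset (ZMod N)) :
    ((univ : Finset (ι → ZMod N)).filter fun z => ev L s z ∈ X).card * N ≤
      X.card * N ^ Fintype.card ι := by
  rw [← card_coord N i X]
  refine Nat.mul_le_mul_right _ ?_
  refine Finset.card_le_card_of_injOn (fun z => Function.update z i (ev L s z)) ?_ ?_
  · intro z hz
    have h1 := (Finset.mem_filter.1 hz).2
    refine Finset.mem_coe.2 (Finset.mem_filter.2 ⟨Finset.mem_univ _, ?_⟩)
    show Function.update z i (ev L s z) i ∈ X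
    rwa [Function.update_self]
  · intro z _ y _ h
    have h0 : Function.update z i (ev L s z) = Function.update y i (ev L s y) := h
    have h1 : ev L s z = ev L s y := by
      have := congrFun h0 i
      rwa [Function.update_self, Function.update_self] at this
    have h2 : ∀ j, j ≠ i → z j = y j := by
      intro j hj
      have := congrFun h0 j
      rwa [Function.update_of_ne hj, Function.update_of_ne hj] at this
    have h3 : (L s i : ZMod N) * z i = (L s i : ZMod N) * y i := by
      unfold ev at h1
      rw [← Finset.add_sum_erase univ _ (Finset.mem_univ i),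
        ← Finset.add_sum_erase univ (fun j => (L s j : ZMod N) * y j) (Finset.mem_univ i)] at h1
      have h4 : ∑ j ∈ univ.erase i, (L s j : ZMod N) * z j =
          ∑ j ∈ univ.erase i, (L s j : ZMod N) * y j :=
        Finset.sum_congr rfl fun j hj => by rw [h2 j (Finset.ne_of_mem_erase hj)]
      rw [h4] at h1
      exact add_right_cancel h1
    have h5 : z i = y i := by
      rcases hi with hi | hi
      · rw [hi] at h3
        simpa using h3
      · rw [hi] at h3
        simpa using h3
    funext j
    by_cases hj : j = i
    · rw [hj, h5]
    · exact h2 j hj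

/-- **C_BAD** -/
theorem c_bad : BadStmt := by
  intro σ ι _ _ _ _ B L N T _ hG
  obtain ⟨_, h2, _⟩ := hG
  classical
  let X : Finset (ZMod N) := (univ : Finset (ZMod N)).filter fun x => x.val < T ∨ N ≤ x.val + T
  refine ⟨univ.biUnion fun s : σ => (univ : Finset (ι → ZMod N)).filter fun z => ev L s z ∈ X,
    ?_, ?_⟩
  · intro z hz
    unfold Gd at hz
    push Not at hz
    obtain ⟨s, hs⟩ := hz
    refine Finset.mem_biUnion.2 ⟨s, Finset.mem_univ _, Finset.mem_filter.2 ⟨Finset.mem_univ _, ?_⟩⟩
    refine Finset.mem_filter.2 ⟨Finset.mem_univ _, ?_⟩
    by_cases h : T ≤ (ev L s z).val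
    · exact Or.inr (hs h)
    · exact Or.inl (not_le.1 h)
  · have h3 : (univ.biUnion fun s : σ =>
        (univ : Finset (ι → ZMod N)).filter fun z => ev L s z ∈ X).card * N ≤
        2 * Fintype.card σ * T * N ^ Fintype.card ι := by
      calc _ ≤ (∑ s : σ, ((univ : Finset (ι → ZMod N)).filter fun z => ev L s z ∈ X).card) * N :=
            Nat.mul_le_mul_right _ Finset.card_biUnion_le
        _ = ∑ s : σ, ((univ : Finset (ι → ZMod N)).filter fun z => ev L s z ∈ X).card * N :=
            Finset.sum_mul _ _ _
        _ ≤ ∑ _s : σ, 2 * T * N ^ Fintype.card ι := by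
            refine Finset.sum_le_sum fun s _ => ?_
            obtain ⟨i, hi⟩ := h2 s
            exact (card_form L N s i hi X).trans
              (Nat.mul_le_mul_right _ (card_ends N T))
        _ = 2 * Fintype.card σ * T * N ^ Fintype.card ι := by
            rw [Finset.sum_const, Finset.card_univ, smul_eq_mul]
            ring
    exact_mod_cast h3

end Pool.Agent.GT.H90

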