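import Pool.Agent.GT.StmtsD

/-!
# Squad GT, row D_APP (helper90): the base point is moved to infinity
-/

set_option autoImplicit false

namespace Pool.Agent.GT.D.H90A

open Pool.Agent.GT.D

theorem app : AppStmt := by
  intro ι _ _ D u₀ v₀ hL
  have hne : Nonempty ι := by
    by_contra hcon
    rw [not_nonempty_iff] at hcon
    have h1 := D.deg 0
    have h2 := D.N1
    rw [Finset.univ_eq_empty, Finset.sum_empty] at h1
    omega
  obtain ⟨l₀⟩ := hne
  have huv : u₀ ^ 2 + v₀ ^ 2 ≠ 0 := by
    intro h0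
    have hu : u₀ = 0 := by nlinarith [sq_nonneg u₀, sq_nonneg v₀]
    have hv : v₀ = 0 := by nlinarith [sq_nonneg u₀, sq_nonneg v₀]
    apply hL l₀
    rw [hu, hv]
    simp [LD.L]
  set c : ι → ℤ := fun l => D.L l u₀ v₀ with hc
  set f : ι → ℤ := fun l => D.L l (-v₀) u₀ with hf
  set R : ι → ℤ := fun l => ∏ l' ∈ Finset.univ.erase l, c l' with hR
  set Q : ℤ := ∏ l, c l with hQ
  have hQ0 : Q ≠ 0 := Finset.prod_ne_zero_iff.mpr fun l _ => hL l
  have hQR : ∀ l, c l * R l = Q := fun l =>
    Finset.mul_prod_erase Finset.univ c (Finset.mem_univ l)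
  set n' : ι → ℤ := fun l => f l * R l with hn'
  set μ : ℤ := -∑ l, |n' l| with hμ
  have hpos : ∀ l, 0 ≤ n' l - μ := by
    intro l
    have h1 : |n' l| ≤ ∑ l, |n' l| :=
      Finset.single_le_sum (f := fun l => |n' l|) (fun i _ => abs_nonneg _) (Finset.mem_univ l)
    have h2 := neg_abs_le (n' l)
    rw [hμ]
    linarith
  refine ⟨Q * (-v₀) - μ * u₀, Q * u₀ - μ * v₀, fun l => (n' l - μ).toNat, ?_, ?_, ?_⟩
  · have h1 : u₀ * (Q * u₀ - μ * v₀) - (Q * (-v₀) - μ * u₀) * v₀ = Q * (u₀ ^ 2 + v₀ ^ 2) := by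
      ring
    rw [h1]
    exact mul_ne_zero hQ0 huv
  · intro l l' hll
    by_contra hcon
    have h1 : (n' l - μ).toNat = (n' l' - μ).toNat := hll
    have h2 : n' l = n' l' := by
      have h3 := hpos l
      have h4 := hpos l'
      omega
    have h5 : Q * (c l' * f l - c l * f l') = 0 := by
      have h6 : c l * c l' * (n' l - n' l') = 0 := by rw [h2, sub_self, mul_zero]
      have h7 : c l * c l' * (n' l - n' l') = c l' * f l * (c l * R l) - c l * f l' * (c l' * R l') := by
        simp only [hn']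
        ring
      rw [h7, hQR, hQR] at h6
      linear_combination h6
    have h8 : c l' * f l - c l * f l' = 0 := by
      rcases mul_eq_zero.mp h5 with h | h
      · exact absurd h hQ0
      · exact h
    have h9 : (u₀ ^ 2 + v₀ ^ 2) * (D.al l * D.be l' - D.al l' * D.be l) = 0 := by
      simp only [hc, hf, LD.L] at h8
      linear_combination -h8
    rcases mul_eq_zero.mp h9 with h | h
    · exact huv h
    · exact D.np l l' hcon h
  · intro a d l
    have h1 : (((n' l - μ).toNat : ℕ) : ℤ) = n' l - μ := Int.toNat_of_nonneg (hpos l)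
    rw [h1]
    have h2 : D.L l (u₀ * a + (Q * (-v₀) - μ * u₀) * d) (v₀ * a + (Q * u₀ - μ * v₀) * d) =
        c l * a + (Q * f l - μ * c l) * d := by
      simp only [hc, hf, LD.L]
      ring
    rw [h2, ← hQR l]
    simp only [hn']
    show c l * a + (c l * R l * f l - μ * c l) * d = c l * (a + (f l * R l - μ) * d)
    ring

end Pool.Agent.GT.D.H90A
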